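import Pool.Agent.NH29.GK.Ah
import Pool.Agent.U582.GK.Orb

/-!
MP_70ba79_ag, Q1: degrees of the maps from affine curves to the complements of at least `n + 2`
Zariski-general hypersurface sections of an arbitrary projective variety of dimension `n`, to all their
strata, and to all their finite covers: a linear bound, with empty exceptional set, uniform in the
hypersurfaces, which remains true for orbifold curves with large multiplicities.

Let `k` be a field of characteristic zero, and let `V` be a closed subset of projective space, given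
by forms over `k`, of dimension at most `n`. Let `q ≥ n + 2`, and let `d_1, …, d_q` be positive
integers, such that at most `2 (q - n - 1)` of them are equal to `1` (for `q = n + 2`: at most two of
them), or such that for `1 ≤ m ≤ n` the sum of any `q - 1 - m` of them is at least `n - m + n / m`.

THEOREM. There are a nonzero polynomial `Φ`, with coefficients in `k`, in the coefficients of `q`
forms of degrees `d_1, …, d_q`, and a number `B ≥ 1`, with the following property. Let `K` be an
algebraically closed field which contains `k`, let `F = (F_1, …, F_q)` be forms of degrees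
`d_1, …, d_q` over `K` with `Φ (F) ≠ 0`, let `W` be a closed subset of a projective space over `K` and
`g` a morphism from `W` to `V` given by forms of degree `e ≥ 1` without common zero on `W` (so `g` is
finite), and let `C` be a proper subset of the indices (for instance the empty set). Let `X` be the set
of the points `x` of `W` with `F_c (g (x)) = 0` for `c ∈ C` and `F_b (g (x)) ≠ 0` for `b ∉ C`, an
affine variety.
For every morphism `f` from a smooth affine curve over `K` (with smooth completion of genus `p`, and
with `s` points removed) to `X`,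
  `e deg f ≤ B max (2 p - 2 + s, 0)`,
and the same bound is true for the morphisms `f` to the set of the points of `W` with
`F_c (g (x)) = 0`, `c ∈ C`, which are allowed to meet the divisors `F_b (g (x)) = 0`, `b ∉ C`, with
multiplicities at least `B` (in the sense of Campana; `f` is not contained in these divisors).

Here `deg f` is the degree of the pullback of `O(1)` to the completion of the curve, which is the
product of the degree of the closure of the image and of the degree of the map to it (and `0` for
constant `f`). The exceptional set is empty, and `B` depends only on `V` and the degrees `d_b`, but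
not on `F`, `K`, `W`, `g`, `e`, or `C`. For `W = V`, `g` the identity this is the case of
the complements.

For `W = V` and the morphisms to `X` this is the theorem `Pool.Agent.NH29.GK.ah` of the starting
library; new are the finite covers (`Pool.Agent.U582.GK.Cov`) and the orbifold curves
(`Pool.Agent.U582.GK.Orb`).
-/

set_option autoImplicit false

namespace Pool.Agent.Results.MP_70ba79_ag.GeneralComponents

open MvPolynomial FF Pool.Agent.W603.LV Pool.Agent.W603.PV

/-- The closed subset of the projective space of dimension `M` given by the forms in `V` has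
dimension at most `n`: there are `n + 1` linear forms without common zero on it. -/
def DimLE {k : Type} [Field k] {M : ℕ} (V : Set (MvPolynomial (Fin (M + 1)) k)) (n : ℕ) : Prop :=
  ∃ ℓ : Fin (n + 1) → MvPolynomial (Fin (M + 1)) k, (∀ j, (ℓ j).IsHomogeneous 1) ∧
    ∀ y : Fin (M + 1) → AlgebraicClosure k,
      (∀ H ∈ V, aeval y H = 0) → (∀ j, aeval y (ℓ j) = 0) → y = 0

/-- The indices of the coefficients of `q` forms of degrees `d i` in `M + 1` variables. -/
abbrev Index (M : ℕ) {q : ℕ} (d : Fin q → ℕ) : Type :=
  (i : Fin q) × {β : Fin (M + 1) →₀ ℕ // β.degree = d i}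

/-- `F` is a family of forms of degrees `d i`, and `Φ (F) ≠ 0`. -/
def General {k : Type} [Field k] {M q : ℕ} {K : Type} [Field K] [Algebra k K] {d : Fin q → ℕ}
    (Φ : MvPolynomial (Index M d) k) (F : Fin q → MvPolynomial (Fin (M + 1)) K) : Prop :=
  (∀ i, (F i).IsHomogeneous (d i)) ∧ aeval (fun s : Index M d => coeff s.2.1 (F s.1)) Φ ≠ 0

/-- The point with the coordinates `G j (y)`. -/
noncomputable def image {K : Type} [Field K] {m M : ℕ} (G : Fin (M + 1) → MvPolynomial (Fin (m + 1)) K)
    {L : Type} [Field L] [Algebra K L] (y : Fin (m + 1) → L) : Fin (M + 1) → L :=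
  fun j => aeval y (G j)

/-- `W` is a set of forms, and the forms `G j` of degree `e ≥ 1` define a morphism from the closed
subset `W = 0` of the projective space of dimension `m` to the closed subset `V = 0` of the projective
space of dimension `M`: they have no common zero on `W = 0`. -/
structure Morphism {k K : Type} [Field k] [Field K] [Algebra k K] {m M : ℕ}
    (V : Set (MvPolynomial (Fin (M + 1)) k)) (W : Set (MvPolynomial (Fin (m + 1)) K))
    (G : Fin (M + 1) → MvPolynomial (Fin (m + 1)) K) (e : ℕ) : Prop where
  forms : ∀ H ∈ W, ∃ a, H.IsHomogeneous a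
  pos : 0 < e
  degree : ∀ j, (G j).IsHomogeneous e
  noZero : ∀ y : Fin (m + 1) → K, (∀ H ∈ W, aeval y H = 0) → image G y = 0 → y = 0
  maps : ∀ y : Fin (m + 1) → K, (∀ H ∈ W, aeval y H = 0) → ∀ H ∈ V, aeval (image G y) H = 0

/-- The vector `f` of elements of the function field `L` is the vector of homogeneous coordinates of
a morphism from the smooth projective curve with function field `L` to the set of the points of
`W = 0` with `F c (G) = 0`, `c ∈ C`. It is not contained in `F b (G) = 0`, `b ∉ C`, and outside of the
finite set `S` of points of the curve it meets these divisors nowhere, or with multiplicity at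
least `B`. -/
structure OrbifoldMap {K : Type} [Field K] {m M q : ℕ} (W : Set (MvPolynomial (Fin (m + 1)) K))
    (G : Fin (M + 1) → MvPolynomial (Fin (m + 1)) K) (e : ℕ) (d : Fin q → ℕ)
    (F : Fin q → MvPolynomial (Fin (M + 1)) K) (C : Finset (Fin q)) (B : ℕ) {L : Type} [Field L]
    [Algebra K L] (S : Finset (Place K L)) (f : Fin (m + 1) → L) : Prop where
  ne : f ≠ 0
  onW : ∀ H ∈ W, aeval f H = 0
  onC : ∀ c ∈ C, aeval (image G f) (F c) = 0
  off : ∀ b, b ∉ C → aeval (image G f) (F b) ≠ 0
  contact : ∀ b, b ∉ C → ∀ P ∉ S, P.ord (aeval (image G f) (F b)) - d b * (e * pord P f) = 0 ∨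
    B ≤ P.ord (aeval (image G f) (F b)) - d b * (e * pord P f)

/-- The image of a point over a larger field is a point of `V = 0`. -/
theorem onV {k K : Type} [Field k] [Field K] [Algebra k K] [IsAlgClosed K] {m M e : ℕ}
    {V : Set (MvPolynomial (Fin (M + 1)) k)} {W : Set (MvPolynomial (Fin (m + 1)) K)}
    {G : Fin (M + 1) → MvPolynomial (Fin (m + 1)) K} (hG : Morphism V W G e)
    {L : Type} [Field L] [Algebra K L] {f : Fin (m + 1) → L} (hf : ∀ H ∈ W, aeval f H = 0)
    {H : MvPolynomial (Fin (M + 1)) k} (hH : H ∈ V) :
    aeval (image G f) (map (algebraMap k K) H) = 0 := by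
  have hcomp : ∀ (E : Type) [Field E] [Algebra K E] (v : Fin (m + 1) → E),
      aeval v (bind₁ G (map (algebraMap k K) H)) = aeval (image G v) (map (algebraMap k K) H) :=
    fun E _ _ v => aeval_bind₁ v G _
  have h1 : bind₁ G (map (algebraMap k K) H) ∈ (Ideal.span W).radical := by
    rw [← vanishingIdeal_zeroLocus_eq_radical (K := K), mem_vanishingIdeal_iff]
    intro x hx
    rw [mem_zeroLocus_iff] at hx
    have h2 := hG.maps x (fun H' hH' => hx _ (Ideal.subset_span hH')) H hH
    rw [hcomp, aeval_map_algebraMap]
    exact h2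
  obtain ⟨N, hN⟩ := Ideal.mem_radical_iff.1 h1
  have h4 : Ideal.span W ≤ RingHom.ker (aeval f :
      MvPolynomial (Fin (m + 1)) K →ₐ[K] L).toRingHom := by
    rw [Ideal.span_le]
    intro H' hH'
    exact hf H' hH'
  have h5 : aeval f (bind₁ G (map (algebraMap k K) H) ^ N) = 0 := h4 hN
  rw [map_pow, hcomp] at h5
  exact pow_eq_zero_iff_of_pos_or h5
where
  pow_eq_zero_iff_of_pos_or {L : Type} [Field L] {a : L} {N : ℕ} (h : a ^ N = 0) : a = 0 := by
    by_contra h1
    exact pow_ne_zero N h1 h

theorem result {k : Type} [Field k] [CharZero k] {M n q : ℕ}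
    -- the variety
    (V : Set (MvPolynomial (Fin (M + 1)) k)) (hV : ∀ H ∈ V, ∃ e, H.IsHomogeneous e)
    (hn : DimLE V n)
    -- the degrees
    (d : Fin q → ℕ) (hd : ∀ b, 0 < d b) (hq : n + 2 ≤ q)
    (h : (Finset.univ.filter fun b => d b = 1).card + 2 ≤ 2 * (q - n) ∨
      ∀ m, 1 ≤ m → m ≤ n → ∀ B : Finset (Fin q), B.card + m + 1 = q →
        n + m * (n - m) ≤ m * ∑ b ∈ B, d b) :
    ∃ (Φ : MvPolynomial (Index M d) k) (B : ℕ), Φ ≠ 0 ∧ 0 < B ∧
      ∀ (K : Type) [Field K] [Algebra k K] [IsAlgClosed K]
        (F : Fin q → MvPolynomial (Fin (M + 1)) K), General Φ F →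
        ∀ (m e : ℕ) (W : Set (MvPolynomial (Fin (m + 1)) K))
          (G : Fin (M + 1) → MvPolynomial (Fin (m + 1)) K), Morphism V W G e →
        ∀ C : Finset (Fin q), C ≠ Finset.univ →
          ∀ (L : Type) [Field L] [Algebra K L] [IsFF K L] (S : Finset (Place K L))
            (f : Fin (m + 1) → L), OrbifoldMap W G e d F C B S f →
              e * pht K f ≤ B * max (canDeg K L + S.card) 0 := by
  classical
  obtain ⟨ℓ, hℓ, hℓ0⟩ := hn
  have hNum : ∀ C : Finset (Fin q), C ≠ Finset.univ → Pool.Agent.NH29.GN.Num2 n d C := by
    intro C hC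
    rcases h with h | h
    · exact Pool.Agent.NH29.GN.Fn.num_of_few hd hq h C hC
    · exact Pool.Agent.NH29.GN.Fn.num_of_sum hq h C hC
  obtain ⟨Φ, B₀, hΦ, h1⟩ := Pool.Agent.NH29.GK.ah hV hℓ
    (Pool.Agent.NH29.GN.Fn.noZero_of_points hℓ0) (by omega) hd hNum
  refine ⟨Φ, 2 * B₀ * ∑ b, d b + 1, hΦ, Nat.succ_pos _,
    fun K _ _ _ F hF m e W G hG C hC L _ _ _ S f hf => ?_⟩
  have hK : CharZero K := charZero_of_injective_algebraMap (algebraMap k K).injective
  have hno : ∀ y : Fin (m + 1) → K, (∀ H ∈ W, aeval y H = 0) → (∀ j, aeval y (G j) = 0) → y = 0 :=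
    fun y hy h2 => hG.noZero y hy (funext h2)
  have hpord : ∀ P : Place K L, pord P (image G f) = e * pord P f := fun P =>
    (Pool.Agent.U582.GK.pord_comp hG.degree hno hG.forms hf.ne hf.onW P).1
  have hpht : pht K (image G f) = e * pht K f :=
    Pool.Agent.U582.GK.pht_comp hG.degree hno hG.forms hf.ne hf.onW
  have hx : image G f ≠ 0 := by
    obtain ⟨b, -, hb⟩ := Finset.exists_of_ssubset (Finset.ssubset_univ_iff.2 hC)
    intro h0
    refine hf.off b hb ?_
    rw [h0]
    have h2 := Pool.Agent.U582.GK.aeval_smul (hF.1 b) (0 : L) (0 : Fin (M + 1) → L)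
    have h3 : (fun i => (0 : L) * (0 : Fin (M + 1) → L) i) = 0 := by
      funext i
      simp
    rw [h3, zero_pow (hd b).ne', zero_mul] at h2
    exact h2
  have hfv : ∀ b, Pool.Agent.NH29.GN.fv (K := K) (L := L)
      (fun s : Pool.Agent.NH29.GN.Idx M d => coeff s.2.1 (F s.1)) (image G f) b =
        aeval (image G f) (F b) := by
    intro b
    rw [aeval_def]
    exact (Pool.Agent.NH29.GN.Stc.eval₂_form (algebraMap K L) (image G f) (hF.1 b)).symm
  have hge : ∀ b, b ∉ C → ∀ P : Place K L,
      d b * pord P (image G f) ≤ P.ord (aeval (image G f) (F b)) := by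
    intro b hb P
    rcases ge_form P (image G f) (hF.1 b) fun α _ => Ge.const _ with h2 | h2
    · exact absurd h2 (hf.off b hb)
    · exact h2
  have h2 := Pool.Agent.U582.GK.orb (B₀ := B₀) d hd C hC (fun b => aeval (image G f) (F b)) hx hge S
    (fun b hb P hP => ?_) (fun N hN => ?_)
  · rwa [hpht] at h2
  · have h3 := hf.contact b hb P hP
    rw [hpord P]
    omega
  · refine h1 K _ hF.2 C hC L N (image G f) ⟨hx, fun H hH => ?_, fun c hc => ?_, fun b hb => ?_,
      fun b hb Q hQ => ?_⟩
    · have h2 := onV hG hf.onW hH
      rwa [aeval_def, eval₂_map] at h2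
    · rw [hfv]
      exact hf.onC c hc
    · rw [hfv]
      exact hf.off b hb
    · rw [hfv]
      exact hN b hb Q hQ

end Pool.Agent.Results.MP_70ba79_ag.GeneralComponents
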