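import Pool.Agent.U207.QH.Sum

/-!
# Entire curves, log general type, bounded: intersections of quadrics suffice

(1) Let `U = V(S) ∖ V(T)` be any quasi-projective variety in `P^n`, `n ≥ 1` (any dimension and any
singularities; `S`, `T` sets of forms, those in `S` of degree at most `d`, `d ≥ 3`), and `v : P^n → P^N`
the Veronese embedding of degree `d`. For all `c ≥ (2 (N + 1)^3 + 6 N + 5)^2` there are quadratic forms
`P_i` and linear forms `ℓ_i`, `i < c`, depending on `S` only, and a set `T'` of forms on `P^N` (finite if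
`T` is finite), such that the covering of `P^N` with group `(ℤ/2)^c`

`Y : x_i^2 = P_i(h_0, …, h_N), i < c`, in `P^{N+c}`,

is a smooth complete intersection of `c` quadrics, `P_i = ℓ_i^2` on `v(V(S))`, and the smooth
quasi-projective variety `W = Y ∖ V(T')` contains the `2^c` copies `x_i = ± ℓ_i(h)`, `h ∈ v(U)`, of `U` as
closed subvarieties. All nonconstant entire curves in `W` and all closed subvarieties of `W` of
positive dimension not of log general type are in these copies, and for some number `A` all morphisms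
from curves of genus `g` to `Y` have degree at most `A max (2 g - 2, 0)` or are in the copies of `V(S)`.

(2) Let `E N` be infinite sets of numbers. The equivalence of the conditions 2, 4 and 5 of Q1 for all
quasi-projective varieties is equivalent to the following statement on the smooth varieties
`W = Y ∖ V(T)`, where `Y` is a smooth complete intersection of this form with `c ∈ E N`, and `T` is any
set of forms on `P^N`: the smallest closed subsets of `W` which contain all nonconstant entire curves,
resp. outside of which `W` is bounded, resp. which contain all closed subvarieties of positive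
dimension which are not of log general type, are equal, and no irreducible component of positive
dimension is of log general type.

Proof. See `Pool/Agent/U207/QC` and `Pool/Agent/U207/QH`. `v(V(S))` is given by quadratic forms whose
Jacobian matrix has large rank, `P_i = (∑_j a_i^j h_j)^2 + ∑_t a_i^{B + κ t} Q_t(h)`, where the `Q_t` are
generic combinations of these forms and the `a_i` are generic numbers. `P_i(h)` is the value at the
node `a_i` of a polynomial `F_h` in one variable with coefficients depending on `h`. Along a curve the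
method of Büchi's problem (Vojta, Pasten) shows that `F_h = q^2 H`, where the ratios of the values of `H`
have bounded degree (resp. are constant). An argument with the derivative shows that the `h_i / h_0` are
algebraic over the field generated by these ratios unless all `Q_t(h)` are zero, and Noetherian
induction gives the bound for their degrees, uniformly for all curves.
-/

set_option autoImplicit false

namespace Pool.Agent.Results.MP_c69980_ag.QuadricCoversSuffice

open MvPolynomial FF
open Pool.Agent.W602.GT (SubVar GeneralType)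
open Pool.Agent.W603.LV (canDeg)
open Pool.Agent.W603.PV (pht)
open Pool.Agent.N254.SQ (IsForm Eqs Component NotIn LogGeneral OnSpecialQ OnCurvesQ OnBoundedQ
  Monomials veronese)
open Pool.Agent.U207.QC (hI xI coverForm coverEqs SmoothCover Signs onSheet)

/-- The conditions 2, 4, 5 of Q1 are equivalent for all quasi-projective varieties of positive
dimension: `V ∖ V(T)`, where `V` is the closed subset of `P^n` with function field `L` and generic point
`y`, and `T` is a set of forms. -/
def ThreeConditions : Prop :=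
  ∀ (n : ℕ) (T : Set (MvPolynomial (Fin (n + 1)) ℂ)), (∀ H ∈ T, IsForm H) →
    ∀ (L : Type) [Field L] [Algebra ℂ L] (w : ℕ) (y : Fin (n + 1) → L), 1 ≤ w →
      SubVar (fun p : (∅ : Set (MvPolynomial (Fin (n + 1)) ℂ)) => (p : MvPolynomial (Fin (n + 1)) ℂ))
        L w y → NotIn T y →
      [∃ G : MvPolynomial (Fin (n + 1)) ℂ, IsForm G ∧ aeval y G ≠ 0 ∧ OnCurvesQ (Eqs y) T G,
        LogGeneral T L w y,
        ∃ G : MvPolynomial (Fin (n + 1)) ℂ, IsForm G ∧ aeval y G ≠ 0 ∧
          OnBoundedQ (Eqs y) T G].TFAE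

/-- for `W = Y ∖ V(T)`, where `Y = {x_i ^ 2 = P_i(h)}` and `T` is a set of forms in the variables `h`:
the three exceptional sets of `W` (of entire curves, of unbounded maps from curves, of subvarieties not
of log general type) are equal: the same forms vanish on them; and no irreducible component of positive
dimension is of log general type -/
def ExceptionalSets {N c : ℕ} (P : Fin c → MvPolynomial (Fin (N + 1)) ℂ)
    (T : Set (MvPolynomial (Fin (N + 1)) ℂ)) : Prop :=
  (∀ G, IsForm G →
    (OnCurvesQ (coverEqs P) (rename (hI N c) '' T) G ↔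
      OnSpecialQ (coverEqs P) (rename (hI N c) '' T) G) ∧
    (OnBoundedQ (coverEqs P) (rename (hI N c) '' T) G ↔
      OnSpecialQ (coverEqs P) (rename (hI N c) '' T) G)) ∧
    ∀ (L : Type) [Field L] [Algebra ℂ L] (w : ℕ) (y : Fin (N + c + 1) → L), 1 ≤ w →
      SubVar (coverForm P) L w y → NotIn (rename (hI N c) '' T) y →
        LogGeneral (rename (hI N c) '' T) L w y →
        ¬ Component (OnSpecialQ (coverEqs P) (rename (hI N c) '' T)) y

open Pool.Agent.N254.SQ (Gen) in
open Pool.Agent.U207.QC in
open Pool.Agent.U207.QH in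
theorem result :
    (∀ n d : ℕ, 1 ≤ n → 3 ≤ d → ∃ (N : ℕ) (m : Fin (N + 1) → Fin (n + 1) → ℕ),
      Monomials n N d m ∧ ∀ c, (2 * (N + 1) ^ 3 + 6 * N + 5) ^ 2 ≤ c →
        ∀ S : Set (MvPolynomial (Fin (n + 1)) ℂ), (∀ p ∈ S, ∃ e ≤ d, p.IsHomogeneous e) →
        ∃ P ℓ : Fin c → MvPolynomial (Fin (N + 1)) ℂ,
          (∀ i, (P i).IsHomogeneous 2) ∧ (∀ i, (ℓ i).IsHomogeneous 1) ∧ SmoothCover P ∧
          (∀ x : Fin (n + 1) → ℂ, (∀ p ∈ S, eval x p = 0) →
            ∀ i, eval (veronese m x) (P i) = eval (veronese m x) (ℓ i) ^ 2) ∧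
          (∃ A : ℕ, ∀ (E : Type) [Field E] [Algebra ℂ E] [IsFF ℂ E] (y : Fin (N + c + 1) → E),
            y ≠ 0 → (∀ i, aeval y (coverForm P i) = 0) →
            pht ℂ y ≤ A * max (canDeg ℂ E) 0 ∨
              ∃ (ℓ' : Fin c → MvPolynomial (Fin (N + 1)) ℂ) (x : Fin (n + 1) → E) (c₀ : E),
                Signs ℓ ℓ' ∧ x ≠ 0 ∧ c₀ ≠ 0 ∧ (∀ p ∈ S, aeval x p = 0) ∧
                y ∘ hI N c = c₀ • veronese m x ∧
                ∀ i, y (xI N c i) = c₀ * aeval (veronese m x) (ℓ' i)) ∧
          ∀ T : Set (MvPolynomial (Fin (n + 1)) ℂ), (∀ H ∈ T, IsForm H) →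
            ∃ T' : Set (MvPolynomial (Fin (N + 1)) ℂ), (∀ H ∈ T', IsForm H) ∧
              (T.Finite → T'.Finite) ∧
              (∀ x : Fin (n + 1) → ℂ, (∀ H ∈ T', eval (veronese m x) H = 0) ↔
                ∀ H ∈ T, eval x H = 0) ∧
              ∀ G, IsForm G →
                (OnCurvesQ (coverEqs P) (rename (hI N c) '' T') G ↔
                  ∀ ℓ', Signs ℓ ℓ' → OnCurvesQ S T (onSheet m ℓ' G)) ∧
                (OnBoundedQ (coverEqs P) (rename (hI N c) '' T') G ↔
                  ∀ ℓ', Signs ℓ ℓ' → OnBoundedQ S T (onSheet m ℓ' G)) ∧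
                (OnSpecialQ (coverEqs P) (rename (hI N c) '' T') G ↔
                  ∀ ℓ', Signs ℓ ℓ' → OnSpecialQ S T (onSheet m ℓ' G))) ∧
    ∀ E : ℕ → Set ℕ, (∀ N, (E N).Infinite) →
      (ThreeConditions ↔
        ∀ (N c : ℕ) (P : Fin c → MvPolynomial (Fin (N + 1)) ℂ), c ∈ E N →
          (∀ i, (P i).IsHomogeneous 2) → SmoothCover P →
          ∀ T : Set (MvPolynomial (Fin (N + 1)) ℂ), (∀ H ∈ T, IsForm H) →
            ExceptionalSets P T) := by
  have hS := exc0_of (Pool.Agent.N254.SQ.t_qspec Pool.Agent.N254.SQ.t_cent)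
  have hC := exc0_of Pool.Agent.N254.SQ.t_qcurv
  have hB := exc0_bounded
  refine ⟨?_, fun E hE => ?_⟩
  · intro n d hn hd
    obtain ⟨N, m, hm, -, h⟩ := consA n d hn hd
    refine ⟨N, m, ⟨hm.deg, hm.inj, hm.surj⟩, fun c hc S hS1 => ?_⟩
    obtain ⟨P, ℓ, hsm, hg⟩ := h c hc S hS1
    refine ⟨P, ℓ, hg.toC.homP, hg.toC.homL, hsm, fun x hx i => hg.toC.sub ℂ x hx i,
      alg_sheet hg, fun T hT => ?_⟩
    obtain ⟨T', hT', hfin, hl⟩ := exists_liftT hm hg.toC.hd1 T hT
    refine ⟨T', hT', hfin, lifts_zero hg.toC.hd1 hl, fun G hG => ⟨?_, ?_, ?_⟩⟩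
    · exact covT_curves n N d c m S P ℓ hg.toC T T' hl G hG
    · exact covA_bounded n N d c m S P ℓ hg T T' hl G hG
    · exact covT_special n N d c m S P ℓ hg.toC T T' hl G hG
  · constructor
    · intro h3 N c P _ hP _ T hT
      have hA := covEqs_form hP
      have hT2 : ∀ H ∈ rename (hI N c) '' T, IsForm H := clsC_all.ren N c T hT
      have key : ∀ (L : Type) [Field L] [Algebra ℂ L] (w : ℕ) (y : Fin (N + c + 1) → L), 1 ≤ w →
          Gen L w y → NotIn (rename (hI N c) '' T) y →
          (LogGeneral (rename (hI N c) '' T) L w y ↔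
            ∃ G, IsForm G ∧ aeval y G ≠ 0 ∧ OnCurvesQ (Eqs y) (rename (hI N c) '' T) G) ∧
          (LogGeneral (rename (hI N c) '' T) L w y ↔
            ∃ G, IsForm G ∧ aeval y G ≠ 0 ∧ OnBoundedQ (Eqs y) (rename (hI N c) '' T) G) := by
        intro L _ _ w y hw hy hn
        have h4 := h3 (N + c) _ hT2 L w y hw (sub_of_gen hy) hn
        exact ⟨h4.out 1 0, h4.out 1 2⟩
      have hCe := forw_eq hS hC (N + c) _ hT2
        (fun L _ _ w y hw hy hn => (key L w y hw hy hn).1)
      have hBe := forw_eq hS hB (N + c) _ hT2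
        (fun L _ _ w y hw hy hn => (key L w y hw hy hn).2)
      refine ⟨fun G hG => ⟨hCe (coverEqs P) hA G hG, hBe (coverEqs P) hA G hG⟩, ?_⟩
      intro L _ _ w y hw hy hn hlg
      refine forw_imp hS (N + c) _ ?_ (coverEqs P) L w y hw (gen_of_sub hy) hn hlg
      intro L _ _ w y hw hy hn hlg
      obtain ⟨G, hG, hGy, hGc⟩ := (key L w y hw hy hn).1.1 hlg
      exact ⟨G, hG, hGy, (hCe (Eqs y) (fun p hp => hp.1) G hG).1 hGc⟩
    · intro h n T hT L _ _ w y hw hy hn
      have hgen := gen_of_sub hy
      have e21 : LogGeneral T L w y → ∃ G, IsForm G ∧ aeval y G ≠ 0 ∧ OnCurvesQ (Eqs y) T G := by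
        refine imp_cov hC covT_curves clsC_all.cls hE ?_ n T hT L w y hw hgen hn
        intro N c P hc hP hsm T hT L _ _ w y hw hy hn hlg hcomp
        have h5 := h N c P hc hP hsm T hT
        exact h5.2 L w y hw (sub_fun hy) hn hlg (comp_congr (fun G hG => (h5.1 G hG).1) hcomp)
      have e23 : LogGeneral T L w y → ∃ G, IsForm G ∧ aeval y G ≠ 0 ∧
          OnBoundedQ (Eqs y) T G := by
        refine imp_covA hB covA_bounded clsC_all.cls hE ?_ n T hT L w y hw hgen hn
        intro N c P hc hP hsm T hT L _ _ w y hw hy hn hlg hcomp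
        have h5 := h N c P hc hP hsm T hT
        exact h5.2 L w y hw (sub_fun hy) hn hlg (comp_congr (fun G hG => (h5.1 G hG).2) hcomp)
      have e12 : (∃ G, IsForm G ∧ aeval y G ≠ 0 ∧ OnCurvesQ (Eqs y) T G) →
          LogGeneral T L w y :=
        eq_cov hC covT_curves clsC_all.cls hE (fun N c P hc hP hsm T hT G hG hcc =>
          ((h N c P hc hP hsm T hT).1 G hG).1.1 hcc) n T hT L w y hw hgen hn
      have e32 : (∃ G, IsForm G ∧ aeval y G ≠ 0 ∧ OnBoundedQ (Eqs y) T G) →
          LogGeneral T L w y :=
        eq_covA hB covA_bounded clsC_all.cls hE (fun N c P hc hP hsm T hT G hG hcc =>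
          ((h N c P hc hP hsm T hT).1 G hG).2.1 hcc) n T hT L w y hw hgen hn
      tfae_have 2 → 1 := e21
      tfae_have 2 → 3 := e23
      tfae_have 1 → 2 := e12
      tfae_have 3 → 2 := e32
      tfae_finish

end Pool.Agent.Results.MP_c69980_ag.QuadricCoversSuffice
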